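import Pool.Agent.H78.PB.Stm
import Pool.Agent.N892.BW.DMX

/-!
Project PB (helper78), DMX (helper2): dual maximal inequality for sums, real exponents (adapted from
the library file of helper300)
-/

set_option autoImplicit false
set_option linter.all false

open MeasureTheory ENNReal Filter Topology Complex Set
open scoped ComplexConjugate

namespace Pool.Agent.H2PB.DMX

open Pool.Agent.N892.BW Pool.Agent.H78.PB
open Pool.Agent.N892.BW.DMX (PP_meas PP_neg dual)

theorem t (h1 : S_HLM) (h2 : S_RDM) : R_DMX := by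
  intro m hm
  obtain ⟨C1, hC1, hR⟩ := h2
  have hmR : (1 : ℝ) < m := by linarith [hm.1]
  have hm0 : (0 : ℝ) < m := by linarith
  have hm10 : (0 : ℝ) ≤ m - 1 := by linarith
  obtain ⟨q, hq⟩ : ∃ q : ℝ, q = m / (m - 1) := ⟨_, rfl⟩
  have hq1 : 1 < q := by
    rw [hq, lt_div_iff₀ (by linarith)]
    linarith
  have hpq : m.HolderConjugate q := by
    rw [hq]
    exact Real.HolderConjugate.conjExponent hmR
  obtain ⟨C2, hC2, hH⟩ := h1 q hq1
  obtain ⟨C3, hC3, hM⟩ := h1 m hmR
  refine ⟨C1 ^ m * C2 ^ (m - 1) + 1, by positivity, ?_⟩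
  intro L β g hβ hg
  set S : ℂ → ℝ≥0∞ := fun x => ∑ i ∈ Finset.range L, cv (PP (β i)) (g i) x with hS
  set G : ℂ → ℝ≥0∞ := fun x => ∑ i ∈ Finset.range L, g i x with hG
  have hSm : Measurable S := Finset.measurable_sum _ fun i _ => CONV.cv_meas (PP_meas _) (hg i)
  have hGm : Measurable G := Finset.measurable_sum _ fun i _ => hg i
  show ∫⁻ x, S x ^ m ≤ ENNReal.ofReal (C1 ^ m * C2 ^ (m - 1) + 1) * ∫⁻ x, G x ^ m
  set X := ∫⁻ x, S x ^ m with hX
  set Y := ∫⁻ x, G x ^ m with hY
  by_cases hYt : Y = ∞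
  · rw [hYt, ENNReal.mul_top]
    · exact le_top
    · rw [Ne, ENNReal.ofReal_eq_zero, not_le]
      positivity
  -- finiteness
  have hXt : X ≠ ∞ := by
    have b1 : ∀ i ∈ Finset.range L, ∫⁻ x, cv (PP (β i)) (g i) x ^ m < ∞ := by
      intro i hi
      have b2 : ∫⁻ x, g i x ^ m ≤ Y := by
        refine lintegral_mono fun x => ?_
        have : g i x ≤ G x := Finset.single_le_sum (f := fun i => g i x) (fun _ _ => zero_le) hi
        gcongr
      have b3 := (hM (g i) (hg i)).2
      calc ∫⁻ x, cv (PP (β i)) (g i) x ^ m ≤ ∫⁻ x, (ENNReal.ofReal C1 * mx (g i) x) ^ m := by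
            refine lintegral_mono fun x => ?_
            have := hR (β i) (g i) x (hβ i) (hg i)
            gcongr
        _ = ENNReal.ofReal C1 ^ m * ∫⁻ x, mx (g i) x ^ m := by
            simp_rw [ENNReal.mul_rpow_of_nonneg _ _ hm0.le]
            exact lintegral_const_mul' _ _ (ENNReal.rpow_ne_top_of_nonneg hm0.le ENNReal.ofReal_ne_top)
        _ ≤ ENNReal.ofReal C1 ^ m * (ENNReal.ofReal C3 * Y) := by
            gcongr
            exact b3.trans (by gcongr)
        _ < ∞ := ENNReal.mul_lt_top (ENNReal.rpow_lt_top_of_nonneg hm0.le ENNReal.ofReal_ne_top)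
            (ENNReal.mul_lt_top ENNReal.ofReal_lt_top (lt_top_iff_ne_top.2 hYt))
    have b4 : X ≤ (L : ℝ≥0∞) ^ (m - 1) *
        ∑ i ∈ Finset.range L, ∫⁻ x, cv (PP (β i)) (g i) x ^ m := by
      rw [← lintegral_finset_sum _ fun i _ =>
        (CONV.cv_meas (PP_meas _) (hg i)).pow_const m, ← lintegral_const_mul']
      · refine lintegral_mono fun x => ?_
        have := ENNReal.rpow_sum_le_const_mul_sum_rpow (Finset.range L)
          (fun i => cv (PP (β i)) (g i) x) hmR.le
        simp only [Finset.card_range] at this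
        exact this
      · exact ENNReal.rpow_ne_top_of_nonneg hm10 (ENNReal.natCast_ne_top _)
    refine ne_top_of_le_ne_top ?_ b4
    refine ENNReal.mul_ne_top (ENNReal.rpow_ne_top_of_nonneg hm10 (ENNReal.natCast_ne_top _)) ?_
    exact (ENNReal.sum_lt_top.2 b1).ne
  by_cases hX0 : X = 0
  · rw [hX0]
    exact zero_le
  -- the main estimate
  set w : ℂ → ℝ≥0∞ := fun x => S x ^ (m - 1) with hw
  have hwm : Measurable w := hSm.pow_const _
  have k1 : X = ∑ i ∈ Finset.range L, ∫⁻ x, cv (PP (β i)) (g i) x * w x := by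
    have k0 : ∀ i ∈ Finset.range L, Measurable fun x => cv (PP (β i)) (g i) x * w x := fun i _ =>
      (CONV.cv_meas (PP_meas _) (hg i)).mul hwm
    rw [← lintegral_finset_sum _ k0]
    refine lintegral_congr fun x => ?_
    rw [← Finset.sum_mul]
    show S x ^ m = S x * S x ^ (m - 1)
    rw [mul_comm]
    rcases eq_or_ne (S x) 0 with h0 | h0
    · rw [h0, mul_zero, ENNReal.zero_rpow_of_pos hm0]
    rcases eq_or_ne (S x) ∞ with ht | ht
    · rw [ht, ENNReal.top_rpow_of_pos hm0, ENNReal.top_rpow_of_pos (by linarith),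
        ENNReal.top_mul_top]
    · rw [ENNReal.rpow_sub _ _ h0 ht, ENNReal.rpow_one, ENNReal.div_mul_cancel h0 ht]
  have k2 : X ≤ ENNReal.ofReal C1 * ∫⁻ x, G x * mx w x := by
    rw [k1, ← lintegral_const_mul' _ _ ENNReal.ofReal_ne_top]
    have k3 : ∀ x, ENNReal.ofReal C1 * (G x * mx w x) =
        ∑ i ∈ Finset.range L, g i x * (ENNReal.ofReal C1 * mx w x) := by
      intro x
      rw [← Finset.sum_mul]
      ring
    simp_rw [k3]
    have hmx := (hH w hwm).1
    have k0 : ∀ i ∈ Finset.range L, Measurable fun x => g i x * (ENNReal.ofReal C1 * mx w x) :=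
      fun i _ => (hg i).mul (hmx.const_mul _)
    rw [lintegral_finset_sum _ k0]
    refine Finset.sum_le_sum fun i _ => ?_
    rw [dual (PP_meas _) (hg i) hwm (PP_neg _)]
    refine lintegral_mono fun x => ?_
    have := hR (β i) w x (hβ i) hwm
    gcongr
  have hmx := (hH w hwm).1
  have k4 : ∫⁻ x, G x * mx w x ≤ Y ^ (1 / m) * (ENNReal.ofReal C2 * X) ^ (1 / q) := by
    have k5 := ENNReal.lintegral_mul_le_Lp_mul_Lq volume hpq hGm.aemeasurable hmx.aemeasurable
    have k6 : ∫⁻ x, mx w x ^ q ≤ ENNReal.ofReal C2 * X := by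
      refine (hH w hwm).2.trans (le_of_eq ?_)
      congr 1
      refine lintegral_congr fun x => ?_
      show (S x ^ (m - 1)) ^ q = S x ^ m
      rw [← ENNReal.rpow_mul]
      congr 1
      rw [hq]
      have : m - 1 ≠ 0 := by linarith
      field_simp
    refine k5.trans ?_
    have : (0 : ℝ) ≤ 1 / q := by positivity
    gcongr
  have hq2 : 1 / m + 1 / q = 1 := by
    have := hpq.inv_add_inv_eq_one
    simpa [one_div] using this
  have hmp : (0 : ℝ) < 1 / m := by positivity
  have hqp : (0 : ℝ) < 1 / q := by positivity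
  have k7 : X ^ (1 / m) * X ^ (1 / q) ≤
      (ENNReal.ofReal C1 * (ENNReal.ofReal C2) ^ (1 / q) * Y ^ (1 / m)) * X ^ (1 / q) := by
    rw [← ENNReal.rpow_add _ _ hX0 hXt, hq2, ENNReal.rpow_one]
    refine k2.trans ?_
    refine (mul_le_mul_right k4 _).trans (le_of_eq ?_)
    rw [ENNReal.mul_rpow_of_nonneg _ _ hqp.le]
    ring
  have k8 : X ^ (1 / m) ≤
      ENNReal.ofReal C1 * (ENNReal.ofReal C2) ^ (1 / q) * Y ^ (1 / m) := by
    have c0 : X ^ (1 / q) ≠ 0 := by
      rw [Ne, ENNReal.rpow_eq_zero_iff]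
      rintro (h | h)
      · exact hX0 h.1
      · exact hXt h.1
    have ct : X ^ (1 / q) ≠ ∞ := ENNReal.rpow_ne_top_of_nonneg hqp.le hXt
    exact (ENNReal.mul_le_mul_iff_left c0 ct).1 k7
  have k9 : X ≤ ENNReal.ofReal C1 ^ m * ENNReal.ofReal C2 ^ (m - 1) * Y := by
    have d1 : (X ^ (1 / m)) ^ m = X := by
      rw [← ENNReal.rpow_mul, one_div, inv_mul_cancel₀ (by positivity), ENNReal.rpow_one]
    have d2 : (Y ^ (1 / m)) ^ m = Y := by
      rw [← ENNReal.rpow_mul, one_div, inv_mul_cancel₀ (by positivity), ENNReal.rpow_one]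
    have d3 : ((ENNReal.ofReal C2) ^ (1 / q)) ^ m = ENNReal.ofReal C2 ^ (m - 1) := by
      rw [← ENNReal.rpow_mul]
      congr 1
      rw [hq]
      have : m - 1 ≠ 0 := by linarith
      field_simp
    calc X = (X ^ (1 / m)) ^ m := d1.symm
      _ ≤ (ENNReal.ofReal C1 * (ENNReal.ofReal C2) ^ (1 / q) * Y ^ (1 / m)) ^ m := by gcongr
      _ = _ := by
          rw [ENNReal.mul_rpow_of_nonneg _ _ hm0.le, ENNReal.mul_rpow_of_nonneg _ _ hm0.le, d2, d3]
  refine k9.trans ?_
  gcongr
  rw [ENNReal.ofReal_rpow_of_nonneg (by positivity) hm0.le,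
    ENNReal.ofReal_rpow_of_nonneg (by positivity) hm10, ← ENNReal.ofReal_mul (by positivity)]
  apply ENNReal.ofReal_le_ofReal
  linarith

end Pool.Agent.H2PB.DMX
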