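import Mathlib
import Pool.Agent.H78.PB.Stm
import Pool.Agent.N892.BW.LPS_B

/-!
Project PB (helper78), LPS (helper2): auxiliary inequalities for real exponents
-/

set_option autoImplicit false

open MeasureTheory ENNReal Filter Topology Complex
open scoped ComplexConjugate ContDiff

namespace Pool.Agent.H2PB.LPS

open Pool.Agent.N892.BW Pool.Agent.H78.PB

/-! ### algebra -/

/-- upper bound of the increment of a power -/
theorem inc_up_real {r S g : ℝ} (hr : 0 < r) (hr3 : r ≤ 3) (hS : 0 ≤ S) (hg : 0 ≤ g) (hT : 0 < S + g) :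
    (S + g) ^ r ≤ S ^ r + 3 * (g * (S + g) ^ (r - 1)) := by
  obtain ⟨T, hTd⟩ : ∃ T, T = S + g := ⟨_, rfl⟩
  rw [← hTd] at hT ⊢
  obtain ⟨s, hs⟩ : ∃ s, s = S / T := ⟨_, rfl⟩
  have hsT : S = s * T := by rw [hs]; field_simp
  have hs0 : 0 ≤ s := by rw [hs]; positivity
  have hs1 : s ≤ 1 := by rw [hs, div_le_one hT]; linarith
  have hgT : g = (1 - s) * T := by linarith
  have hT1 : T ^ r = T * T ^ (r - 1) := by
    rw [← Real.rpow_one_add' hT.le (by linarith)]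
    congr 1
    ring
  have hTp : 0 < T ^ (r - 1) := Real.rpow_pos_of_pos hT _
  have key : 1 ≤ s ^ r + 3 * (1 - s) := by
    rcases le_total 1 r with h | h
    · have h1 := one_add_mul_self_le_rpow_one_add (s := s - 1) (by linarith) h
      rw [show 1 + (s - 1) = s by ring] at h1
      nlinarith
    · have h1 : s ^ (1 : ℝ) ≤ s ^ r := by
        rcases hs0.eq_or_lt with h0 | h0
        · rw [← h0, Real.zero_rpow one_ne_zero, Real.zero_rpow hr.ne']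
        · exact Real.rpow_le_rpow_of_exponent_ge h0 hs1 h
      rw [Real.rpow_one] at h1
      linarith
  rw [hgT, hsT, Real.mul_rpow hs0 hT.le, hT1]
  have h2 := mul_le_mul_of_nonneg_right key (mul_nonneg hT.le hTp.le)
  calc T * T ^ (r - 1) = 1 * (T * T ^ (r - 1)) := by ring
    _ ≤ (s ^ r + 3 * (1 - s)) * (T * T ^ (r - 1)) := h2
    _ = _ := by ring

/-- lower bound of the increment of a power -/
theorem inc_low_real {r S g : ℝ} (hr : 1 / 10 ≤ r) (hS : 0 ≤ S) (hg : 0 ≤ g) (hT : 0 < S + g) :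
    g * (S + g) ^ (r - 1) + 10 * S ^ r ≤ 10 * (S + g) ^ r := by
  obtain ⟨T, hTd⟩ : ∃ T, T = S + g := ⟨_, rfl⟩
  rw [← hTd] at hT ⊢
  obtain ⟨s, hs⟩ : ∃ s, s = S / T := ⟨_, rfl⟩
  have hsT : S = s * T := by rw [hs]; field_simp
  have hs0 : 0 ≤ s := by rw [hs]; positivity
  have hs1 : s ≤ 1 := by rw [hs, div_le_one hT]; linarith
  have hgT : g = (1 - s) * T := by linarith
  have hT1 : T ^ r = T * T ^ (r - 1) := by
    rw [← Real.rpow_one_add' hT.le (by linarith)]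
    congr 1
    ring
  have hTp : 0 < T ^ (r - 1) := Real.rpow_pos_of_pos hT _
  have key : (1 - s) + 10 * s ^ r ≤ 10 := by
    rcases le_total 1 r with h | h
    · have h1 : s ^ r ≤ s ^ (1 : ℝ) := by
        rcases hs0.eq_or_lt with h0 | h0
        · rw [← h0, Real.zero_rpow one_ne_zero, Real.zero_rpow (by linarith)]
        · exact Real.rpow_le_rpow_of_exponent_ge h0 hs1 h
      rw [Real.rpow_one] at h1
      linarith
    · have h1 := rpow_one_add_le_one_add_mul_self (s := s - 1) (by linarith) (by linarith) h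
      rw [show 1 + (s - 1) = s by ring] at h1
      nlinarith
  rw [hgT, hsT, Real.mul_rpow hs0 hT.le, hT1]
  have h2 := mul_le_mul_of_nonneg_right key (mul_nonneg hT.le hTp.le)
  calc (1 - s) * T * T ^ (r - 1) + 10 * (s ^ r * (T * T ^ (r - 1)))
      = ((1 - s) + 10 * s ^ r) * (T * T ^ (r - 1)) := by ring
    _ ≤ 10 * (T * T ^ (r - 1)) := h2

theorem inc_up {r : ℝ} (hr : 0 < r) (hr3 : r ≤ 3) {S g : ℝ≥0∞} (hS : S ≠ ⊤) (hg : g ≠ ⊤) :
    (S + g) ^ r ≤ S ^ r + 3 * (g * (S + g) ^ (r - 1)) := by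
  obtain ⟨s, hs, rfl⟩ : ∃ x : ℝ, 0 ≤ x ∧ S = ENNReal.ofReal x :=
    ⟨S.toReal, ENNReal.toReal_nonneg, (ENNReal.ofReal_toReal hS).symm⟩
  obtain ⟨c, hc, rfl⟩ : ∃ x : ℝ, 0 ≤ x ∧ g = ENNReal.ofReal x :=
    ⟨g.toReal, ENNReal.toReal_nonneg, (ENNReal.ofReal_toReal hg).symm⟩
  rw [← ENNReal.ofReal_add hs hc]
  rcases (add_nonneg hs hc).eq_or_lt with h | h
  · rw [← h, ENNReal.ofReal_zero, ENNReal.zero_rpow_of_pos hr]
    exact zero_le
  · rw [ENNReal.ofReal_rpow_of_pos h, ENNReal.ofReal_rpow_of_nonneg hs hr.le,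
      ENNReal.ofReal_rpow_of_pos h, ← ENNReal.ofReal_mul hc,
      show (3 : ℝ≥0∞) = ENNReal.ofReal 3 by norm_num,
      ← ENNReal.ofReal_mul (by norm_num), ← ENNReal.ofReal_add (by positivity) (by positivity)]
    exact ENNReal.ofReal_le_ofReal (inc_up_real hr hr3 hs hc h)

theorem inc_low {r : ℝ} (hr : 1 / 10 ≤ r) {S g : ℝ≥0∞} (hS : S ≠ ⊤) (hg : g ≠ ⊤) :
    g * (S + g) ^ (r - 1) + 10 * S ^ r ≤ 10 * (S + g) ^ r := by
  have hr0 : 0 < r := by linarith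
  obtain ⟨s, hs, rfl⟩ : ∃ x : ℝ, 0 ≤ x ∧ S = ENNReal.ofReal x :=
    ⟨S.toReal, ENNReal.toReal_nonneg, (ENNReal.ofReal_toReal hS).symm⟩
  obtain ⟨c, hc, rfl⟩ : ∃ x : ℝ, 0 ≤ x ∧ g = ENNReal.ofReal x :=
    ⟨g.toReal, ENNReal.toReal_nonneg, (ENNReal.ofReal_toReal hg).symm⟩
  rcases (add_nonneg hs hc).eq_or_lt with h | h
  · have h1 : s = 0 := by linarith
    have h2 : c = 0 := by linarith
    rw [h1, h2, ENNReal.ofReal_zero, ENNReal.zero_rpow_of_pos hr0]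
    simp
  · rw [← ENNReal.ofReal_add hs hc]
    rw [ENNReal.ofReal_rpow_of_pos h, ENNReal.ofReal_rpow_of_nonneg hs hr0.le,
      ENNReal.ofReal_rpow_of_pos h, ← ENNReal.ofReal_mul hc,
      show (10 : ℝ≥0∞) = ENNReal.ofReal 10 by norm_num,
      ← ENNReal.ofReal_mul (by norm_num), ← ENNReal.ofReal_mul (by norm_num),
      ← ENNReal.ofReal_add (by positivity) (by positivity)]
    exact ENNReal.ofReal_le_ofReal (inc_low_real hr hs hc h)

/-- the increments of the powers of the partial sums -/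
noncomputable def VV (r : ℝ) (g : ℕ → ℝ≥0∞) (i : ℕ) : ℝ≥0∞ :=
  g i * (∑ l ∈ Finset.range (i + 1), g l) ^ (r - 1)

theorem tel_up {r : ℝ} (hr : 0 < r) (hr3 : r ≤ 3) (g : ℕ → ℝ≥0∞) (hg : ∀ i, g i ≠ ⊤) (k : ℕ) :
    (∑ j ∈ Finset.range k, g j) ^ r ≤ 3 * ∑ i ∈ Finset.range k, VV r g i := by
  induction k with
  | zero => simp [ENNReal.zero_rpow_of_pos hr]
  | succ k ih =>
    rw [Finset.sum_range_succ g, Finset.sum_range_succ (VV r g), mul_add]
    refine (inc_up hr hr3 (ENNReal.sum_ne_top.2 fun i _ => hg i) (hg k)).trans ?_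
    refine add_le_add ih (le_of_eq ?_)
    unfold VV
    rw [Finset.sum_range_succ g]

theorem tel_low {r : ℝ} (hr : 1 / 10 ≤ r) (g : ℕ → ℝ≥0∞) (hg : ∀ i, g i ≠ ⊤) (k : ℕ) :
    ∑ i ∈ Finset.range k, VV r g i ≤ 10 * (∑ j ∈ Finset.range k, g j) ^ r := by
  induction k with
  | zero => simp
  | succ k ih =>
    rw [Finset.sum_range_succ g, Finset.sum_range_succ (VV r g)]
    refine le_trans ?_ (inc_low hr (ENNReal.sum_ne_top.2 fun i _ => hg i) (hg k))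
    rw [add_comm]
    refine add_le_add (le_of_eq ?_) ih
    unfold VV
    rw [Finset.sum_range_succ g]

theorem pow_sum {m : ℝ} (hm : Rg m) (g : ℕ → ℝ≥0∞) (hg : ∀ i, g i ≠ ⊤) (L : ℕ) :
    (∑ k ∈ Finset.range L, g k) ^ m ≤
      12 * ∑ k ∈ Finset.range L, (g k * (∑ j ∈ Finset.range k, g j) ^ (m - 1) + g k ^ m) := by
  obtain ⟨hm1, hm3⟩ := hm
  induction L with
  | zero => simp [ENNReal.zero_rpow_of_pos (show 0 < m by linarith)]
  | succ L ih =>
    rw [Finset.sum_range_succ, Finset.sum_range_succ, mul_add]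
    obtain ⟨S, hS⟩ : ∃ S, S = ∑ k ∈ Finset.range L, g k := ⟨_, rfl⟩
    rw [← hS] at ih ⊢
    have hSt : S ≠ ⊤ := by rw [hS]; exact ENNReal.sum_ne_top.2 fun i _ => hg i
    refine (inc_up (by linarith) hm3 hSt (hg L)).trans (add_le_add ih ?_)
    have h1 : (S + g L) ^ (m - 1) ≤ 4 * (S ^ (m - 1) + g L ^ (m - 1)) := by
      have h2 : ∀ z : ℝ≥0∞, S ≤ z → g L ≤ z → (S + g L) ^ (m - 1) ≤ 4 * z ^ (m - 1) := by
        intro z hz1 hz2
        have h3 : S + g L ≤ 2 * z := by rw [two_mul]; exact add_le_add hz1 hz2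
        refine (ENNReal.rpow_le_rpow h3 (by linarith)).trans ?_
        rw [ENNReal.mul_rpow_of_nonneg _ _ (by linarith)]
        refine mul_le_mul' ?_ le_rfl
        calc (2 : ℝ≥0∞) ^ (m - 1) ≤ (2 : ℝ≥0∞) ^ (2 : ℝ) :=
              ENNReal.rpow_le_rpow_of_exponent_le (by norm_num) (by linarith)
          _ = 4 := by
              rw [show (2 : ℝ) = ((2 : ℕ) : ℝ) by norm_num, ENNReal.rpow_natCast]
              norm_num
      rcases le_total S (g L) with h | h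
      · exact (h2 _ h le_rfl).trans (mul_le_mul' le_rfl le_add_self)
      · exact (h2 _ le_rfl h).trans (mul_le_mul' le_rfl le_self_add)
    have h4 : g L * g L ^ (m - 1) = g L ^ m := by
      rcases eq_or_ne (g L) 0 with h0 | h0
      · rw [h0, zero_mul, ENNReal.zero_rpow_of_pos (by linarith)]
      · rw [ENNReal.rpow_sub _ _ h0 (hg L), ENNReal.rpow_one, ENNReal.mul_div_cancel h0 (hg L)]
    calc 3 * (g L * (S + g L) ^ (m - 1)) ≤ 3 * (g L * (4 * (S ^ (m - 1) + g L ^ (m - 1)))) :=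
          mul_le_mul' le_rfl (mul_le_mul' le_rfl h1)
      _ = 12 * (g L * S ^ (m - 1) + g L * g L ^ (m - 1)) := by ring
      _ = _ := by rw [h4]

/-- slow variation -/
theorem VV_slow {r : ℝ} (hr : 0 ≤ r) (hr2 : r ≤ 2) (g g' : ℕ → ℝ≥0∞) (i : ℕ) (E : ℝ≥0∞)
    (hE : 1 ≤ E) (hEt : E ≠ ⊤) (h : ∀ l, l ≤ i → g' l ≤ E * g l) (h' : ∀ l, l ≤ i → g l ≤ E * g' l) :
    VV r g' i ≤ E ^ 2 * VV r g i := by
  have hE0 : E ≠ 0 := (zero_lt_one.trans_le hE).ne'
  have hs : ∑ l ∈ Finset.range (i + 1), g' l ≤ E * ∑ l ∈ Finset.range (i + 1), g l := by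
    rw [Finset.mul_sum]
    refine Finset.sum_le_sum fun l hl => h l ?_
    have := Finset.mem_range.1 hl
    omega
  have hs' : ∑ l ∈ Finset.range (i + 1), g l ≤ E * ∑ l ∈ Finset.range (i + 1), g' l := by
    rw [Finset.mul_sum]
    refine Finset.sum_le_sum fun l hl => h' l ?_
    have := Finset.mem_range.1 hl
    omega
  obtain ⟨S, hS⟩ : ∃ S, S = ∑ l ∈ Finset.range (i + 1), g l := ⟨_, rfl⟩
  obtain ⟨S', hS'⟩ : ∃ S, S = ∑ l ∈ Finset.range (i + 1), g' l := ⟨_, rfl⟩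
  unfold VV
  rw [← hS, ← hS'] at hs hs'
  rw [← hS, ← hS']
  have key : S' ^ (r - 1) ≤ E * S ^ (r - 1) := by
    rcases le_total 1 r with h1 | h1
    · refine (ENNReal.rpow_le_rpow hs (by linarith)).trans ?_
      rw [ENNReal.mul_rpow_of_nonneg _ _ (by linarith)]
      refine mul_le_mul' ?_ le_rfl
      calc E ^ (r - 1) ≤ E ^ (1 : ℝ) := ENNReal.rpow_le_rpow_of_exponent_le hE (by linarith)
        _ = E := ENNReal.rpow_one E
    · have e1 : r - 1 = -(1 - r) := by ring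
      rw [e1, ENNReal.rpow_neg, ENNReal.rpow_neg]
      have h2 : S ^ (1 - r) ≤ E * S' ^ (1 - r) := by
        refine (ENNReal.rpow_le_rpow hs' (by linarith)).trans ?_
        rw [ENNReal.mul_rpow_of_nonneg _ _ (by linarith)]
        refine mul_le_mul' ?_ le_rfl
        calc E ^ (1 - r) ≤ E ^ (1 : ℝ) := ENNReal.rpow_le_rpow_of_exponent_le hE (by linarith)
          _ = E := ENNReal.rpow_one E
      have h3 := ENNReal.inv_le_inv.2 h2
      rw [ENNReal.mul_inv (Or.inl hE0) (Or.inl hEt)] at h3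
      calc (S' ^ (1 - r))⁻¹ = E * (E⁻¹ * (S' ^ (1 - r))⁻¹) := by
            rw [← mul_assoc, ENNReal.mul_inv_cancel hE0 hEt, one_mul]
        _ ≤ E * (S ^ (1 - r))⁻¹ := mul_le_mul' le_rfl h3
  calc g' i * S' ^ (r - 1) ≤ (E * g i) * (E * S ^ (r - 1)) := mul_le_mul' (h i le_rfl) key
    _ = E ^ 2 * (g i * S ^ (r - 1)) := by ring

/-- real form of the absorption -/
theorem absorb_real (m : ℝ) (hm : 1 ≤ m) (A B x y : ℝ) (hA : 0 ≤ A) (hB : 0 ≤ B) (hx : 0 ≤ x)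
    (hy : 0 ≤ y) (h : y ≤ A * x ^ (1 / m) * y ^ (1 - 1 / m) + B * x) :
    y ≤ ((2 * A) ^ m + 2 * B) * x := by
  have hm0 : (0 : ℝ) < m := by linarith
  by_cases hc : y ≤ 2 * B * x
  · have : 0 ≤ (2 * A) ^ m * x := by positivity
    nlinarith
  have hc' : 2 * B * x < y := not_le.1 hc
  have hy0 : 0 < y := lt_of_le_of_lt (by positivity) hc'
  have h1 : y / 2 ≤ A * x ^ (1 / m) * y ^ (1 - 1 / m) := by linarith
  have h2 : y = y ^ (1 / m) * y ^ (1 - 1 / m) := by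
    rw [← Real.rpow_add hy0]
    simp
  have hyp : 0 < y ^ (1 - 1 / m) := Real.rpow_pos_of_pos hy0 _
  have h3 : y ^ (1 / m) ≤ 2 * A * x ^ (1 / m) := by
    have h4 : y ^ (1 / m) * y ^ (1 - 1 / m) ≤ (2 * A * x ^ (1 / m)) * y ^ (1 - 1 / m) := by
      rw [← h2]
      linarith
    exact le_of_mul_le_mul_right h4 hyp
  have h5 : (y ^ (1 / m)) ^ m ≤ (2 * A * x ^ (1 / m)) ^ m :=
    Real.rpow_le_rpow (Real.rpow_nonneg hy _) h3 hm0.le
  have h6 : ∀ z : ℝ, 0 ≤ z → (z ^ (1 / m)) ^ m = z := by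
    intro z hz
    rw [← Real.rpow_mul hz]
    rw [one_div, inv_mul_cancel₀ hm0.ne', Real.rpow_one]
  rw [Real.mul_rpow (by positivity) (by positivity), h6 y hy, h6 x hx] at h5
  nlinarith [mul_nonneg hB hx]

theorem absorb (m : ℝ) (hm1 : 1 ≤ m) (A B : ℝ) (X Y : ℝ≥0∞) (hA : 0 ≤ A) (hB : 0 ≤ B) (hX : X ≠ ⊤)
    (hY : Y ≠ ⊤)
    (h : Y ≤ ENNReal.ofReal A * (X ^ (1 / m) * Y ^ (1 - 1 / m)) + ENNReal.ofReal B * X) :
    Y ≤ ENNReal.ofReal ((2 * A) ^ m + 2 * B) * X := by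
  have hm0 : 0 ≤ 1 / m := by positivity
  have hθ : 0 ≤ 1 - 1 / m := by
    have : 1 / m ≤ 1 := by
      rw [div_le_one (by linarith)]
      exact hm1
    linarith
  obtain ⟨x, hx, rfl⟩ : ∃ x : ℝ, 0 ≤ x ∧ X = ENNReal.ofReal x :=
    ⟨X.toReal, ENNReal.toReal_nonneg, (ENNReal.ofReal_toReal hX).symm⟩
  obtain ⟨y, hy, rfl⟩ : ∃ y : ℝ, 0 ≤ y ∧ Y = ENNReal.ofReal y :=
    ⟨Y.toReal, ENNReal.toReal_nonneg, (ENNReal.ofReal_toReal hY).symm⟩
  rw [ENNReal.ofReal_rpow_of_nonneg hx hm0, ENNReal.ofReal_rpow_of_nonneg hy hθ,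
    ← ENNReal.ofReal_mul (by positivity), ← ENNReal.ofReal_mul hA, ← ENNReal.ofReal_mul hB,
    ← ENNReal.ofReal_add (by positivity) (by positivity),
    ENNReal.ofReal_le_ofReal_iff (by positivity)] at h
  rw [← ENNReal.ofReal_mul (by positivity)]
  refine ENNReal.ofReal_le_ofReal (absorb_real m hm1 A B x y hA hB hx hy ?_)
  linarith

/-! ### integrals -/

theorem holder {m : ℝ} (hm1 : 1 < m) (u w : ℂ → ℝ≥0∞) (hu : Measurable u) (hw : Measurable w) :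
    ∫⁻ x, u x * w x ^ (m - 1) ≤
      (∫⁻ x, u x ^ m) ^ (1 / m) * (∫⁻ x, w x ^ m) ^ (1 - 1 / m) := by
  have hm0 : m ≠ 0 := by linarith
  have hm10 : m - 1 ≠ 0 := by linarith
  have hpq : m.HolderConjugate (m / (m - 1)) := Real.HolderConjugate.conjExponent hm1
  have h1 := ENNReal.lintegral_mul_le_Lp_mul_Lq volume hpq hu.aemeasurable
    (hw.pow_const (m - 1)).aemeasurable
  refine h1.trans (le_of_eq ?_)
  congr 1
  have h2 : ∀ x, (w x ^ (m - 1)) ^ (m / (m - 1)) = w x ^ m := by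
    intro x
    rw [← ENNReal.rpow_mul]
    congr 1
    field_simp
  simp only [h2]
  congr 1
  field_simp

/-- finiteness -/
theorem fin {m : ℝ} (hm : Rg m) (f : ℂ → ℂ) (hf : Nic2 f) : Nr m f ≠ ⊤ := by
  obtain ⟨hm1, hm3⟩ := hm
  obtain ⟨hmeas, hint, M, hM⟩ := hf
  unfold Nr
  have h1 : ∀ x, ‖f x‖ₑ ^ (2 * m) ≤ ENNReal.ofReal M ^ (2 * m - 1) * ‖f x‖ₑ := by
    intro x
    have hne : ‖f x‖ₑ ≠ ⊤ := enorm_ne_top
    rcases eq_or_ne ‖f x‖ₑ 0 with h0 | h0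
    · rw [h0, ENNReal.zero_rpow_of_pos (by linarith)]
      exact zero_le
    · have e : ‖f x‖ₑ ^ (2 * m) = ‖f x‖ₑ ^ (2 * m - 1) * ‖f x‖ₑ := by
        rw [ENNReal.rpow_sub _ _ h0 hne, ENNReal.rpow_one, ENNReal.div_mul_cancel h0 hne]
      rw [e]
      refine mul_le_mul' (ENNReal.rpow_le_rpow ?_ (by linarith)) le_rfl
      rw [← ofReal_norm]
      exact ENNReal.ofReal_le_ofReal (hM x)
  refine ne_top_of_le_ne_top ?_ (lintegral_mono h1)
  rw [lintegral_const_mul _ hmeas.enorm]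
  exact ENNReal.mul_ne_top (ENNReal.rpow_ne_top_of_nonneg (by linarith) ENNReal.ofReal_ne_top)
    hint.2.ne

end Pool.Agent.H2PB.LPS
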