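import Mathlib
import Pool.Agent.H2PB.LPSa

/-!
Project PB (helper78), LPS (helper2): the square function inequality of Littlewood and Paley for real
exponents
-/

set_option autoImplicit false

open MeasureTheory ENNReal Filter Topology Complex
open scoped ComplexConjugate ContDiff

namespace Pool.Agent.H2PB.LPS

open Pool.Agent.N892.BW Pool.Agent.H78.PB
open Pool.Agent.N892.BW.LPS (PP_meas PP_mass cv_eq cv_meas cs slow lp_eq th0 lp_Bd bpos bmono bp_Bd
  bp_sum bp_mass Bd_mono mul_Bd sum_swap)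

/-- the sum of the powers of the pieces -/
theorem zero (h1 : S_BAS) (h2 : S_CNV) (h3 : S_PLT) (h4 : R_PGL) (m : ℝ) (hm : Rg m) :
    ∃ C : ℝ, 0 ≤ C ∧ ∀ (L : ℕ) (β : ℕ → ℝ) (b : ℝ) (h : ℂ → ℂ), 0 < β 0 →
      (∀ i, 2 * β i ≤ β (i + 1)) → Bd 0 b h →
      ∑ i ∈ Finset.range L, Nr m (Fi (fun ξ => bp β i ξ * h ξ)) ≤ ENNReal.ofReal C * Nr m (Fi h) := by
  have hC1 : 0 ≤ ∫ x, ‖Fi th0 x‖ := integral_nonneg fun _ => norm_nonneg _
  obtain ⟨C', hC', hP⟩ := h4 m (4 + 2 * ∫ x, ‖Fi th0 x‖) hm (by positivity)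
  refine ⟨C', hC', ?_⟩
  intro L β b h h0 hβ hh
  set B : ℝ := max b (2 * β L) with hB
  have hBL : 2 * β L ≤ B := le_max_right _ _
  have hbB : b ≤ B := le_max_left _ _
  set μ : ℕ → ℂ → ℂ := fun i => if i < L then bp β i else 0 with hμdef
  have hμ1 : ∀ i, i < L → μ i = bp β i := fun i hi => by rw [hμdef]; simp [hi]
  have hμB : ∀ i, Bd 0 B (μ i) := by
    intro i
    by_cases hi : i < L
    · rw [hμ1 i hi]
      refine Bd_mono (bp_Bd β h0 hβ i) (le_trans ?_ hBL)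
      linarith [bmono β h0 hβ (show i + 1 ≤ L from hi)]
    · have : μ i = 0 := by rw [hμdef]; simp [hi]
      rw [this]
      exact ⟨contDiff_const, fun ξ hξ => absurd rfl hξ⟩
  have hhB : Bd 0 B h := Bd_mono hh hbB
  have hres := hP L (fun i => Fi (μ i)) (fun i hi => ⟨(h1 B _ (hμB i)).1, (h1 B _ (hμB i)).2.2.1.2.1, ?_⟩)
    ?_ (Fi h) (h1 B h hhB).2.2.1
  · refine le_trans (le_of_eq ?_) hres
    refine Finset.sum_congr rfl fun i hi => ?_
    have hi' := Finset.mem_range.1 hi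
    congr 1
    funext x
    have h5 := (h2 B (μ i) h (hμB i) hhB x).2
    rw [← h5, hμ1 i hi']
  · show ∫ x, ‖Fi (μ i) x‖ ≤ _
    rw [hμ1 i hi]
    have := bp_mass h1 β h0 hβ i
    linarith
  · intro g hg
    refine h3 B L μ _ hμB (fun ξ => ?_) g hg
    have h5 : ∑ i ∈ Finset.range L, ‖μ i ξ‖ ^ 2 = ∑ i ∈ Finset.range L, ‖bp β i ξ‖ ^ 2 := by
      refine Finset.sum_congr rfl fun i hi => ?_
      rw [hμ1 i (Finset.mem_range.1 hi)]
    rw [h5]
    have := bp_sum β h0 hβ L ξ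
    linarith

theorem t (h1 : S_BAS) (h2 : S_CNV) (h3 : S_PLT) (h6 : S_MAJ) (h7 : S_WLT) (h4 : R_PGL)
    (h5 : R_DMX) : R_LPS := by
  intro m hm
  obtain ⟨C0, hC0, hzero⟩ := zero h1 h2 h3 h4 m hm
  have hmRg := hm
  obtain ⟨hm1, hm3⟩ := hm
  have hmR : (1 : ℝ) < m := by linarith
  have hm0 : (0 : ℝ) < m := by linarith
  have hθ : 0 ≤ 1 - 1 / m := by
    have : 1 / m ≤ 1 := by
      rw [div_le_one (by linarith)]
      linarith
    linarith
  obtain ⟨K, hK, hmass⟩ := PP_mass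
  obtain ⟨CM, hCM, hmaj⟩ := h6
  obtain ⟨CD, hCD, hdmx⟩ := h5 m hmRg
  obtain ⟨CW, hCW, hwlt⟩ := h7 8 256 (by positivity)
  set D : ℝ := CM ^ 2 * K with hD
  have hD0 : 0 ≤ D := by positivity
  clear_value D
  set A : ℝ := 12 * (D ^ (m - 1) * (30 * (CW * CD ^ (1 - 1 / m)))) with hA
  set B : ℝ := 12 * C0 with hB
  have hDm : 0 ≤ D ^ (m - 1) := Real.rpow_nonneg hD0 _
  have hCDm : 0 ≤ CD ^ (1 - 1 / m) := Real.rpow_nonneg hCD.le _
  have hA0 : 0 ≤ A := by positivity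
  have hB0 : 0 ≤ B := by positivity
  clear_value A B
  refine ⟨(2 * A) ^ m + 2 * B, by positivity, fun L β b h h0 hβ hh => ?_⟩
  have hbp : ∀ i, 0 < β i := bpos β h0 hβ
  have hbm : Monotone β := bmono β h0 hβ
  -- notation
  set g : ℕ → ℂ → ℂ := fun i => Fi (fun ξ => bp β i ξ * h ξ) with hg
  have hBd : ∀ i, Bd 0 (2 * β (i + 1)) (fun ξ => bp β i ξ * h ξ) := fun i =>
    mul_Bd (bp_Bd β h0 hβ i) hh
  set G : ℕ → ℂ → ℝ≥0∞ := fun i x => ‖g i x‖ₑ ^ 2 with hG
  have hGm : ∀ i, Measurable (G i) := fun i => (h1 _ _ (hBd i)).1.measurable.enorm.pow_const 2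
  have hGt : ∀ i x, G i x ≠ ⊤ := fun i x => ENNReal.pow_ne_top enorm_ne_top
  have hgm : ∀ i, Measurable fun x => ‖g i x‖ₑ := fun i => (h1 _ _ (hBd i)).1.measurable.enorm
  set gt : ℕ → ℂ → ℝ≥0∞ := fun i => cv (PP (2 * β (i + 1))) (G i) with hgt
  have hgtm : ∀ i, Measurable (gt i) := fun i => cv_meas _ _ (hGm i)
  have h2b : ∀ i, 0 < 2 * β (i + 1) := fun i => by linarith [hbp (i + 1)]
  have hgtt : ∀ i x, gt i x ≠ ⊤ := by
    intro i x
    obtain ⟨M, hM⟩ := (h1 _ _ (hBd i)).2.2.1.2.2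
    have e1 : gt i x ≤ ∫⁻ y, PP (2 * β (i + 1)) y * ENNReal.ofReal M ^ 2 := by
      refine lintegral_mono fun y => mul_le_mul' le_rfl (pow_le_pow_left' ?_ 2)
      rw [← ofReal_norm]
      exact ENNReal.ofReal_le_ofReal (hM _)
    refine ne_top_of_le_ne_top ?_ e1
    rw [lintegral_mul_const _ (PP_meas _)]
    exact ENNReal.mul_ne_top (ne_top_of_le_ne_top ENNReal.ofReal_ne_top (hmass _ (h2b i)))
      (ENNReal.pow_ne_top ENNReal.ofReal_ne_top)
  set F : ℂ → ℝ≥0∞ := fun x => ‖Fi h x‖ₑ ^ 2 with hF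
  have hFm : Measurable F := (h1 _ _ hh).1.measurable.enorm.pow_const 2
  have hpw : ∀ z : ℝ≥0∞, (z ^ 2) ^ m = z ^ (2 * m) := fun z => by
    rw [← ENNReal.rpow_natCast, ← ENNReal.rpow_mul]
    norm_num
  set X : ℝ≥0∞ := Nr m (Fi h) with hX
  have hXt : X ≠ ⊤ := fin hmRg _ (h1 _ _ hh).2.2.1
  have hXF : ∫⁻ x, F x ^ m = X := by
    rw [hX, hF]
    unfold Nr
    exact lintegral_congr fun x => hpw _
  set Y : ℝ≥0∞ := ∫⁻ x, (∑ i ∈ Finset.range L, G i x) ^ m with hY
  show Y ≤ _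
  -- the pieces
  have hpieces : ∑ i ∈ Finset.range L, ∫⁻ x, G i x ^ m ≤ ENNReal.ofReal C0 * X := by
    refine le_trans (le_of_eq ?_) (hzero L β b h h0 hβ hh)
    refine Finset.sum_congr rfl fun i _ => ?_
    unfold Nr
    exact lintegral_congr fun x => hpw _
  have hYt : Y ≠ ⊤ := by
    have hb : ∀ x, (∑ i ∈ Finset.range L, G i x) ^ m ≤
        ((L : ℝ≥0∞) ^ (m - 1)) * ∑ i ∈ Finset.range L, G i x ^ m := by
      intro x
      have := ENNReal.rpow_sum_le_const_mul_sum_rpow (Finset.range L) (fun i => G i x)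
        (show (1 : ℝ) ≤ m by linarith)
      simp only [Finset.card_range] at this
      exact this
    refine ne_top_of_le_ne_top ?_ (lintegral_mono hb)
    rw [lintegral_const_mul _ (Finset.measurable_fun_sum _ fun i _ => (hGm i).pow_const m),
      lintegral_finsetSum _ fun i _ => (hGm i).pow_const m]
    refine ENNReal.mul_ne_top ?_ (ne_top_of_le_ne_top
      (ENNReal.mul_ne_top ENNReal.ofReal_ne_top hXt) hpieces)
    exact ENNReal.rpow_ne_top_of_nonneg (by linarith) (ENNReal.natCast_ne_top L)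
  -- majorants
  have hmajo : ∀ i x, G i x ≤ ENNReal.ofReal D * gt i x := by
    intro i x
    have e1 := (hmaj (2 * β (i + 1)) _ x 0 (h2b i) (hBd i)).1
    rw [add_zero, norm_zero, mul_zero, add_zero, one_pow, mul_one] at e1
    have e2 := cs hmass (2 * β (i + 1)) (h2b i) (fun z => ‖g i z‖ₑ) (hgm i) x
    calc G i x = ‖g i x‖ₑ ^ 2 := rfl
      _ ≤ (ENNReal.ofReal CM * cv (PP (2 * β (i + 1))) (fun z => ‖g i z‖ₑ) x) ^ 2 :=
          pow_le_pow_left' e1 2
      _ = ENNReal.ofReal CM ^ 2 * (cv (PP (2 * β (i + 1))) (fun z => ‖g i z‖ₑ) x) ^ 2 := mul_pow _ _ _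
      _ ≤ ENNReal.ofReal CM ^ 2 * (ENNReal.ofReal K * gt i x) := mul_le_mul' le_rfl e2
      _ = ENNReal.ofReal D * gt i x := by
          rw [hD, ENNReal.ofReal_mul (by positivity), ENNReal.ofReal_pow hCM, mul_assoc]
  -- the weights
  set W : ℕ → ℂ → ℝ≥0∞ := fun k x => (∑ j ∈ Finset.range k, gt j x) ^ (m - 1) with hW
  have hWm : ∀ k, Measurable (W k) := fun k =>
    (Finset.measurable_fun_sum _ fun l _ => hgtm l).pow_const _
  set V : ℕ → ℂ → ℝ≥0∞ := fun i x => VV (m - 1) (fun l => gt l x) i with hV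
  have hWV : ∀ k x, W k x ≤ 3 * ∑ i ∈ Finset.range k, V i x := fun k x =>
    tel_up (by linarith) (by linarith) (fun l => gt l x) (fun i => hgtt i x) k
  have hVW : ∀ k x, ∑ i ∈ Finset.range k, V i x ≤ 10 * W k x := fun k x =>
    tel_low (by linarith) (fun l => gt l x) (fun i => hgtt i x) k
  have hVm : ∀ i, Measurable (V i) := fun i =>
    (hgtm i).mul ((Finset.measurable_fun_sum _ fun l _ => hgtm l).pow_const _)
  have hVs : ∀ i x y, V i (x + y) ≤
      ENNReal.ofReal (256 * (1 + β (i + 1) * ‖y‖) ^ 8) * V i x := by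
    intro i x y
    have e3 := hbp (i + 1)
    have hny : 0 ≤ ‖y‖ := norm_nonneg y
    have hslow : ∀ l, l ≤ i → ∀ z w : ℂ, ‖w‖ = ‖y‖ → gt l (z + w) ≤
        ENNReal.ofReal ((1 + 2 * β (i + 1) * ‖y‖) ^ 4) * gt l z := by
      intro l hl z w hw
      refine (slow (2 * β (l + 1)) (h2b l) (G l) z w).trans (mul_le_mul' ?_ le_rfl)
      refine ENNReal.ofReal_le_ofReal ?_
      rw [hw]
      have e2 : β (l + 1) ≤ β (i + 1) := hbm (by omega)
      have e3 := h2b l
      have e4 : 2 * β (l + 1) * ‖y‖ ≤ 2 * β (i + 1) * ‖y‖ :=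
        mul_le_mul_of_nonneg_right (by linarith) (norm_nonneg y)
      have e5 : 0 ≤ 2 * β (l + 1) * ‖y‖ := by positivity
      exact pow_le_pow_left₀ (by linarith) (by linarith) 4
    have hE1 : (1 : ℝ) ≤ (1 + 2 * β (i + 1) * ‖y‖) ^ 4 := by
      have : 0 ≤ 2 * β (i + 1) * ‖y‖ := by positivity
      exact one_le_pow₀ (by linarith)
    have e1 := VV_slow (r := m - 1) (by linarith) (by linarith) (fun l => gt l x)
      (fun l => gt l (x + y)) i (ENNReal.ofReal ((1 + 2 * β (i + 1) * ‖y‖) ^ 4))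
      (by rw [← ENNReal.ofReal_one]; exact ENNReal.ofReal_le_ofReal hE1) ENNReal.ofReal_ne_top
      (fun l hl => hslow l hl x y rfl) (fun l hl => by
        have := hslow l hl (x + y) (-y) (norm_neg y)
        rwa [add_neg_cancel_right] at this)
    refine e1.trans (mul_le_mul' ?_ le_rfl)
    rw [← ENNReal.ofReal_pow (by positivity)]
    refine ENNReal.ofReal_le_ofReal ?_
    have e5 : (1 + 2 * β (i + 1) * ‖y‖) ≤ 2 * (1 + β (i + 1) * ‖y‖) := by linarith
    calc ((1 + 2 * β (i + 1) * ‖y‖) ^ 4) ^ 2 = (1 + 2 * β (i + 1) * ‖y‖) ^ 8 := by ring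
      _ ≤ (2 * (1 + β (i + 1) * ‖y‖)) ^ 8 := pow_le_pow_left₀ (by positivity) e5 8
      _ = 256 * (1 + β (i + 1) * ‖y‖) ^ 8 := by ring
  have hwl : ∀ i, ∑ j ∈ Finset.range (L - (i + 1)), ∫⁻ x, G (i + 1 + j) x * V i x ≤
      ENNReal.ofReal CW * ∫⁻ x, F x * V i x := by
    intro i
    exact hwlt (β (i + 1)) (L - (i + 1)) (fun k => β (i + 1 + k)) (V i) b h (hbp _) le_rfl
      (fun k => hβ (i + 1 + k)) (hVm i) (hVs i) hh
  have hsum : ∑ k ∈ Finset.range L, ∫⁻ x, G k x * W k x ≤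
      30 * (ENNReal.ofReal CW * ∫⁻ x, F x * W L x) := by
    have e1 : ∀ k, ∫⁻ x, G k x * W k x ≤ 3 * ∑ i ∈ Finset.range k, ∫⁻ x, G k x * V i x := by
      intro k
      have e := lintegral_finsetSum (μ := volume) (Finset.range k)
        (f := fun i x => G k x * V i x) fun i _ => (hGm k).mul (hVm i)
      rw [← e, ← lintegral_const_mul' _ _ (by norm_num)]
      refine lintegral_mono fun x => ?_
      calc G k x * W k x ≤ G k x * (3 * ∑ i ∈ Finset.range k, V i x) :=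
            mul_le_mul' le_rfl (hWV k x)
        _ = 3 * ∑ i ∈ Finset.range k, G k x * V i x := by
            rw [← Finset.mul_sum]
            ring
    have e2 : ∑ i ∈ Finset.range L, ∫⁻ x, F x * V i x ≤ 10 * ∫⁻ x, F x * W L x := by
      have e := lintegral_finsetSum (μ := volume) (Finset.range L)
        (f := fun i x => F x * V i x) fun i _ => hFm.mul (hVm i)
      rw [← e, ← lintegral_const_mul' _ _ (by norm_num)]
      refine lintegral_mono fun x => ?_
      rw [← Finset.mul_sum]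
      calc F x * ∑ i ∈ Finset.range L, V i x ≤ F x * (10 * W L x) := mul_le_mul' le_rfl (hVW L x)
        _ = 10 * (F x * W L x) := by ring
    calc ∑ k ∈ Finset.range L, ∫⁻ x, G k x * W k x
        ≤ ∑ k ∈ Finset.range L, 3 * ∑ i ∈ Finset.range k, ∫⁻ x, G k x * V i x :=
          Finset.sum_le_sum fun k _ => e1 k
      _ = 3 * ∑ i ∈ Finset.range L, ∑ j ∈ Finset.range (L - (i + 1)),
            ∫⁻ x, G (i + 1 + j) x * V i x := by
          rw [← Finset.mul_sum]
          congr 1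
          exact sum_swap (fun k i => ∫⁻ x, G k x * V i x) L
      _ ≤ 3 * ∑ i ∈ Finset.range L, ENNReal.ofReal CW * ∫⁻ x, F x * V i x :=
          mul_le_mul' le_rfl (Finset.sum_le_sum fun i _ => hwl i)
      _ = 3 * (ENNReal.ofReal CW * ∑ i ∈ Finset.range L, ∫⁻ x, F x * V i x) := by
          rw [← Finset.mul_sum]
      _ ≤ 3 * (ENNReal.ofReal CW * (10 * ∫⁻ x, F x * W L x)) :=
          mul_le_mul' le_rfl (mul_le_mul' le_rfl e2)
      _ = _ := by ring
  have hhol : ∫⁻ x, F x * W L x ≤ ENNReal.ofReal (CD ^ (1 - 1 / m)) *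
      (X ^ (1 / m) * Y ^ (1 - 1 / m)) := by
    have e1 := holder hmR F (fun x => ∑ j ∈ Finset.range L, gt j x) hFm
      (Finset.measurable_fun_sum _ fun l _ => hgtm l)
    rw [hXF] at e1
    have e2 : ∫⁻ x, (∑ j ∈ Finset.range L, gt j x) ^ m ≤ ENNReal.ofReal CD * Y :=
      hdmx L (fun i => 2 * β (i + 1)) G h2b hGm
    have e3 : (∫⁻ x, (∑ j ∈ Finset.range L, gt j x) ^ m) ^ (1 - 1 / m) ≤
        ENNReal.ofReal (CD ^ (1 - 1 / m)) * Y ^ (1 - 1 / m) := by
      refine (ENNReal.rpow_le_rpow e2 hθ).trans (le_of_eq ?_)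
      rw [ENNReal.mul_rpow_of_nonneg _ _ hθ, ENNReal.ofReal_rpow_of_nonneg hCD.le hθ]
    refine e1.trans ((mul_le_mul' le_rfl e3).trans (le_of_eq ?_))
    ring
  -- the square function
  have hDe : ENNReal.ofReal D ^ (m - 1) = ENNReal.ofReal (D ^ (m - 1)) :=
    ENNReal.ofReal_rpow_of_nonneg hD0 (by linarith)
  have hpt : ∀ x, (∑ i ∈ Finset.range L, G i x) ^ m ≤ 12 *
      ∑ k ∈ Finset.range L, (ENNReal.ofReal (D ^ (m - 1)) * (G k x * W k x) + G k x ^ m) := by
    intro x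
    refine (pow_sum hmRg (fun i => G i x) (fun i => hGt i x) L).trans (mul_le_mul' le_rfl ?_)
    refine Finset.sum_le_sum fun k _ => add_le_add ?_ le_rfl
    have e1 : ∑ j ∈ Finset.range k, G j x ≤ ENNReal.ofReal D * ∑ j ∈ Finset.range k, gt j x := by
      rw [Finset.mul_sum]
      exact Finset.sum_le_sum fun j _ => hmajo j x
    calc G k x * (∑ j ∈ Finset.range k, G j x) ^ (m - 1)
        ≤ G k x * (ENNReal.ofReal D * ∑ j ∈ Finset.range k, gt j x) ^ (m - 1) :=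
          mul_le_mul' le_rfl (ENNReal.rpow_le_rpow e1 (by linarith))
      _ = ENNReal.ofReal (D ^ (m - 1)) * (G k x * W k x) := by
          rw [ENNReal.mul_rpow_of_nonneg _ _ (by linarith), hDe, hW]
          ring
  have hYle : Y ≤ ENNReal.ofReal A * (X ^ (1 / m) * Y ^ (1 - 1 / m)) +
      ENNReal.ofReal B * X := by
    have hmeas1 : ∀ k, Measurable fun x => ENNReal.ofReal (D ^ (m - 1)) * (G k x * W k x) := fun k =>
      ((hGm k).mul (hWm k)).const_mul _
    have hmeas2 : ∀ k ∈ Finset.range L, Measurable fun x =>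
        ENNReal.ofReal (D ^ (m - 1)) * (G k x * W k x) + G k x ^ m := fun k _ =>
      (hmeas1 k).add ((hGm k).pow_const m)
    have e1 : ∫⁻ x, 12 *
        ∑ k ∈ Finset.range L, (ENNReal.ofReal (D ^ (m - 1)) * (G k x * W k x) + G k x ^ m) =
        12 * ∑ k ∈ Finset.range L,
          (ENNReal.ofReal (D ^ (m - 1)) * (∫⁻ x, G k x * W k x) + ∫⁻ x, G k x ^ m) := by
      rw [lintegral_const_mul _ (Finset.measurable_fun_sum _ hmeas2)]
      have e2 := lintegral_finsetSum (μ := volume) (Finset.range L)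
        (f := fun k x => ENNReal.ofReal (D ^ (m - 1)) * (G k x * W k x) + G k x ^ m) hmeas2
      rw [e2]
      congr 1
      refine Finset.sum_congr rfl fun k _ => ?_
      rw [lintegral_add_left (hmeas1 k)]
      congr 1
      exact lintegral_const_mul _ ((hGm k).mul (hWm k))
    have e3 : Y ≤ 12 * (ENNReal.ofReal (D ^ (m - 1)) *
        (∑ k ∈ Finset.range L, ∫⁻ x, G k x * W k x) + ∑ k ∈ Finset.range L, ∫⁻ x, G k x ^ m) := by
      refine (lintegral_mono hpt).trans (le_of_eq ?_)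
      rw [e1]
      congr 1
      rw [Finset.mul_sum, ← Finset.sum_add_distrib]
    have e4 : ENNReal.ofReal (D ^ (m - 1)) *
        (∑ k ∈ Finset.range L, ∫⁻ x, G k x * W k x) ≤
        ENNReal.ofReal (D ^ (m - 1)) * (30 * (ENNReal.ofReal CW *
            (ENNReal.ofReal (CD ^ (1 - 1 / m)) *
              (X ^ (1 / m) * Y ^ (1 - 1 / m))))) :=
      mul_le_mul' le_rfl (hsum.trans (mul_le_mul' le_rfl (mul_le_mul' le_rfl hhol)))
    refine e3.trans ((mul_le_mul' le_rfl (add_le_add e4 hpieces)).trans (le_of_eq ?_))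
    have e5 : ENNReal.ofReal A = 12 * (ENNReal.ofReal (D ^ (m - 1)) *
        (30 * (ENNReal.ofReal CW * ENNReal.ofReal (CD ^ (1 - 1 / m))))) := by
      rw [hA, ENNReal.ofReal_mul (by positivity), ENNReal.ofReal_mul (by positivity),
        ENNReal.ofReal_mul (by positivity), ENNReal.ofReal_mul (by positivity),
        ENNReal.ofReal_ofNat, ENNReal.ofReal_ofNat]
    have e6 : ENNReal.ofReal B = 12 * ENNReal.ofReal C0 := by
      rw [hB, ENNReal.ofReal_mul (by positivity), ENNReal.ofReal_ofNat]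
    rw [e5, e6]
    ring
  exact absorb m hmR.le A B X Y hA0 hB0 hXt hYt hYle

end Pool.Agent.H2PB.LPS
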